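import Mathlib

/-!
# How many partitions of the palette are bad for a list
-/

set_option autoImplicit false

namespace Pool.Agent.Lib_helper23.UC

open Finset

/-- the generating function of the number of colours of `A` in the parts of `S` -/
theorem mgf {C : Type} [Fintype C] [DecidableEq C] (q : ℕ) (A : Finset C) (S : Finset (Fin q))
    (x : ℝ) :
    ∑ P : C → Fin q, x ^ (A.filter (fun c => P c ∈ S)).card =
      ((q : ℝ) - S.card + S.card * x) ^ A.card * (q : ℝ) ^ (Fintype.card C - A.card) := by
  have h1 : ∀ P : C → Fin q, x ^ (A.filter (fun c => P c ∈ S)).card =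
      ∏ c : C, (if c ∈ A ∧ P c ∈ S then x else 1) := by
    intro P
    rw [Finset.prod_ite, Finset.prod_const_one, mul_one, Finset.prod_const]
    congr 2
    ext c
    simp
  have h2 : ∀ c : C, ∑ j : Fin q, (if c ∈ A ∧ j ∈ S then x else 1) =
      if c ∈ A then (q : ℝ) - S.card + S.card * x else q := by
    intro c
    by_cases hc : c ∈ A
    · simp only [hc, true_and, if_true]
      rw [Finset.sum_ite, Finset.sum_const, Finset.sum_const]
      have h3 : (Finset.univ.filter (fun j : Fin q => j ∈ S)) = S := by ext; simp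
      have h4 : (Finset.univ.filter (fun j : Fin q => j ∉ S)) = Sᶜ := by ext; simp
      rw [h3, h4, Finset.card_compl, Fintype.card_fin]
      have h5 : S.card ≤ q := by
        have := Finset.card_le_univ S
        rwa [Fintype.card_fin] at this
      simp only [nsmul_eq_mul]
      push_cast [Nat.cast_sub h5]
      ring
    · simp [hc]
  calc ∑ P : C → Fin q, x ^ (A.filter (fun c => P c ∈ S)).card
      = ∑ P : C → Fin q, ∏ c : C, (if c ∈ A ∧ P c ∈ S then x else 1) :=
        Finset.sum_congr rfl (fun P _ => h1 P)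
    _ = ∏ c : C, ∑ j : Fin q, (if c ∈ A ∧ j ∈ S then x else 1) := by
        rw [Finset.prod_univ_sum, Fintype.piFinset_univ]
    _ = ∏ c : C, (if c ∈ A then (q : ℝ) - S.card + S.card * x else q) :=
        Finset.prod_congr rfl (fun c _ => h2 c)
    _ = _ := by
        rw [Finset.prod_ite, Finset.prod_const, Finset.prod_const]
        congr 2
        · congr 1; ext; simp
        · have : (Finset.univ.filter (fun c : C => c ∉ A)) = Aᶜ := by ext; simp
          rw [this, Finset.card_compl]

/-- `e^{-s} ≤ 1 - s + s²/2` for `s ≥ 0` -/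
theorem exp_neg_le {s : ℝ} (hs0 : 0 ≤ s) : Real.exp (-s) ≤ 1 - s + s ^ 2 / 2 := by
  have h5 : 1 + s + s ^ 2 / 2 ≤ Real.exp s := Real.quadratic_le_exp_of_nonneg hs0
  have h6 : Real.exp (-s) * Real.exp s = 1 := by rw [← Real.exp_add]; simp
  have h7 : (1 - s + s ^ 2 / 2) * (1 + s + s ^ 2 / 2) = 1 + s ^ 4 / 4 := by ring
  have h8 : 0 ≤ s ^ 4 := by positivity
  have h9 : 0 < 1 + s + s ^ 2 / 2 := by positivity
  have h10 : 0 < Real.exp (-s) := Real.exp_pos _
  by_contra h11
  push Not at h11
  have : (1 - s + s ^ 2 / 2) * (1 + s + s ^ 2 / 2) < Real.exp (-s) * (1 + s + s ^ 2 / 2) :=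
    mul_lt_mul_of_pos_right h11 h9
  have h12 : Real.exp (-s) * (1 + s + s ^ 2 / 2) ≤ Real.exp (-s) * Real.exp s :=
    mul_le_mul_of_nonneg_left h5 h10.le
  nlinarith

/-- the number of partitions with fewer than `K` colours of `A` in the parts of `S` -/
theorem tail_count {C : Type} [Fintype C] [DecidableEq C] (q K : ℕ) (A : Finset C)
    (S : Finset (Fin q)) (hq : 1 ≤ q) (hK : 1 ≤ K) (s : ℝ) (hs : 0 ≤ s) :
    (((Finset.univ : Finset (C → Fin q)).filter
      (fun P => (A.filter (fun c => P c ∈ S)).card < K)).card : ℝ) ≤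
      (q : ℝ) ^ (Fintype.card C) *
        Real.exp (s * ((K : ℝ) - 1) - (A.card : ℝ) * S.card / q * (1 - Real.exp (-s))) := by
  have hq0 : (0 : ℝ) < q := by exact_mod_cast hq
  set x : ℝ := Real.exp (-s) with hx
  have hx0 : 0 < x := Real.exp_pos _
  have hx1 : x ≤ 1 := by rw [hx]; exact Real.exp_le_one_iff.mpr (by linarith)
  have h1 : (((Finset.univ : Finset (C → Fin q)).filter
      (fun P => (A.filter (fun c => P c ∈ S)).card < K)).card : ℝ) * x ^ (K - 1) ≤
      ((q : ℝ) - S.card + S.card * x) ^ A.card * (q : ℝ) ^ (Fintype.card C - A.card) := by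
    rw [← mgf q A S x, ← nsmul_eq_mul, ← Finset.sum_const]
    calc ∑ P ∈ (Finset.univ : Finset (C → Fin q)).filter
          (fun P => (A.filter (fun c => P c ∈ S)).card < K), x ^ (K - 1)
        ≤ ∑ P ∈ (Finset.univ : Finset (C → Fin q)).filter
          (fun P => (A.filter (fun c => P c ∈ S)).card < K),
            x ^ (A.filter (fun c => P c ∈ S)).card := by
          apply Finset.sum_le_sum
          intro P hP
          apply pow_le_pow_of_le_one hx0.le hx1
          have := (Finset.mem_filter.1 hP).2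
          omega
      _ ≤ _ := Finset.sum_le_sum_of_subset_of_nonneg (Finset.filter_subset _ _)
          (fun P _ _ => pow_nonneg hx0.le _)
  have h2 : ((q : ℝ) - S.card + S.card * x) ≤ q * Real.exp (-(S.card * (1 - x)) / q) := by
    have := Real.add_one_le_exp (-((S.card : ℝ) * (1 - x)) / q)
    have h3 : (q : ℝ) * (-((S.card : ℝ) * (1 - x)) / q + 1) = (q : ℝ) - S.card + S.card * x := by
      field_simp; ring
    rw [← h3]
    exact mul_le_mul_of_nonneg_left this hq0.le
  have hSq : (S.card : ℝ) ≤ q := by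
    have := Finset.card_le_univ S
    rw [Fintype.card_fin] at this
    exact_mod_cast this
  have h0 : 0 ≤ (q : ℝ) - S.card + S.card * x := by
    have : 0 ≤ (S.card : ℝ) * x := by positivity
    linarith
  have hA : A.card ≤ Fintype.card C := Finset.card_le_univ A
  have h4 : ((q : ℝ) - S.card + S.card * x) ^ A.card * (q : ℝ) ^ (Fintype.card C - A.card) ≤
      (q : ℝ) ^ (Fintype.card C) * Real.exp (-((A.card : ℝ) * S.card / q * (1 - x))) := by
    calc ((q : ℝ) - S.card + S.card * x) ^ A.card * (q : ℝ) ^ (Fintype.card C - A.card)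
        ≤ (q * Real.exp (-(S.card * (1 - x)) / q)) ^ A.card *
            (q : ℝ) ^ (Fintype.card C - A.card) :=
          mul_le_mul_of_nonneg_right (pow_le_pow_left₀ h0 h2 _) (pow_nonneg hq0.le _)
      _ = _ := by
          rw [mul_pow, ← Real.exp_nat_mul]
          have h5 : (q : ℝ) ^ (Fintype.card C) =
              (q : ℝ) ^ A.card * (q : ℝ) ^ (Fintype.card C - A.card) := by
            rw [← pow_add]; congr 1; omega
          rw [h5]
          have h6 : (A.card : ℝ) * (-(S.card * (1 - x)) / q) =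
              -((A.card : ℝ) * S.card / q * (1 - x)) := by
            field_simp
          rw [h6]; ring
  have h5 : x ^ (K - 1) = Real.exp (-(s * ((K : ℝ) - 1))) := by
    rw [hx, ← Real.exp_nat_mul]
    congr 1
    push_cast [Nat.cast_sub hK]
    ring
  have h6 := h1.trans h4
  rw [h5] at h6
  have h7 : (0 : ℝ) < Real.exp (s * ((K : ℝ) - 1)) := Real.exp_pos _
  calc (((Finset.univ : Finset (C → Fin q)).filter
      (fun P => (A.filter (fun c => P c ∈ S)).card < K)).card : ℝ)
      = (((Finset.univ : Finset (C → Fin q)).filter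
      (fun P => (A.filter (fun c => P c ∈ S)).card < K)).card : ℝ) *
        Real.exp (-(s * ((K : ℝ) - 1))) * Real.exp (s * ((K : ℝ) - 1)) := by
        rw [mul_assoc, ← Real.exp_add]; simp
    _ ≤ ((q : ℝ) ^ (Fintype.card C) * Real.exp (-((A.card : ℝ) * S.card / q * (1 - x)))) *
        Real.exp (s * ((K : ℝ) - 1)) := mul_le_mul_of_nonneg_right h6 h7.le
    _ = _ := by
        rw [mul_assoc, ← Real.exp_add]; congr 2; ring

/-- the partitions for which the list `A` has fewer than `l` good parts (parts containing at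
least `k` colours of `A`) -/
def badSet {C : Type} [Fintype C] [DecidableEq C] (q k l : ℕ) (A : Finset C) :
    Finset (C → Fin q) :=
  Finset.univ.filter (fun P =>
    ((Finset.univ : Finset (Fin q)).filter
      (fun i => k ≤ (A.filter (fun c => P c = i)).card)).card < l)

/-- the failure probability -/
noncomputable def dd (k l s : ℕ) (ε : ℝ) : ℝ :=
  ((l + s).choose (s + 1) : ℝ) * Real.exp (-(ε ^ 2 * ((s : ℝ) + 1) * k / (2 * (1 + ε))))

theorem dd_nonneg (k l s : ℕ) (ε : ℝ) : 0 ≤ dd k l s ε :=
  mul_nonneg (Nat.cast_nonneg _) (Real.exp_pos _).le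

theorem bad_count {C : Type} [Fintype C] [DecidableEq C] (k l s : ℕ) (hk : 1 ≤ k) (hl : 1 ≤ l)
    (A : Finset C) (ε : ℝ) (hε : 0 < ε) (hA : (1 + ε) * ((k : ℝ) * ((l : ℝ) + s)) ≤ A.card) :
    ((badSet (l + s) k l A).card : ℝ) ≤
      dd k l s ε * ((Finset.univ : Finset (C → Fin (l + s))).card : ℝ) := by
  classical
  have hq : 1 ≤ l + s := by omega
  have hq0 : (0 : ℝ) < ((l + s : ℕ) : ℝ) := by exact_mod_cast hq
  have hk0 : (0 : ℝ) < k := by exact_mod_cast hk
  have hcardΩ : ((Finset.univ : Finset (C → Fin (l + s))).card : ℝ) =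
      ((l + s : ℕ) : ℝ) ^ (Fintype.card C) := by
    rw [Finset.card_univ, Fintype.card_fun, Fintype.card_fin]; push_cast; ring
  -- union over the sets of bad parts
  have hsub : badSet (l + s) k l A ⊆
      (Finset.powersetCard (s + 1) (Finset.univ : Finset (Fin (l + s)))).biUnion (fun S =>
        (Finset.univ : Finset (C → Fin (l + s))).filter
          (fun P => (A.filter (fun c => P c ∈ S)).card < (s + 1) * k)) := by
    intro P hP
    rw [badSet, Finset.mem_filter] at hP
    have hP2 := hP.2
    set B := (Finset.univ : Finset (Fin (l + s))).filter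
      (fun i => ¬ k ≤ (A.filter (fun c => P c = i)).card) with hB
    have h1 := Finset.card_filter_add_card_filter_not
      (s := (Finset.univ : Finset (Fin (l + s))))
      (fun i => k ≤ (A.filter (fun c => P c = i)).card)
    rw [Finset.card_univ, Fintype.card_fin] at h1
    have h2 : s + 1 ≤ B.card := by
      rw [hB]; omega
    obtain ⟨S, hSB, hSc⟩ := Finset.exists_subset_card_eq h2
    rw [Finset.mem_biUnion]
    refine ⟨S, Finset.mem_powersetCard.2 ⟨Finset.subset_univ _, hSc⟩, ?_⟩
    rw [Finset.mem_filter]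
    refine ⟨Finset.mem_univ _, ?_⟩
    have h3 : A.filter (fun c => P c ∈ S) =
        S.biUnion (fun i => A.filter (fun c => P c = i)) := by
      ext c
      simp only [Finset.mem_filter, Finset.mem_biUnion]
      constructor
      · rintro ⟨h, h'⟩; exact ⟨P c, h', h, rfl⟩
      · rintro ⟨i, hi, h, h'⟩; exact ⟨h, by rw [h']; exact hi⟩
    have h4 : (A.filter (fun c => P c ∈ S)).card ≤ ∑ i ∈ S, (A.filter (fun c => P c = i)).card := by
      rw [h3]; exact Finset.card_biUnion_le
    have h5 : ∑ i ∈ S, (A.filter (fun c => P c = i)).card ≤ ∑ _i ∈ S, (k - 1) := by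
      apply Finset.sum_le_sum
      intro i hi
      have := (Finset.mem_filter.1 (hSB hi)).2
      omega
    rw [Finset.sum_const, hSc, smul_eq_mul] at h5
    have h6 : (s + 1) * (k - 1) < (s + 1) * k :=
      Nat.mul_lt_mul_of_pos_left (by omega) (by omega)
    omega
  -- every term
  set σ : ℝ := ε / (1 + ε) with hσ
  have hσ0 : 0 < σ := by positivity
  have hterm : ∀ S ∈ Finset.powersetCard (s + 1) (Finset.univ : Finset (Fin (l + s))),
      (((Finset.univ : Finset (C → Fin (l + s))).filter
          (fun P => (A.filter (fun c => P c ∈ S)).card < (s + 1) * k)).card : ℝ) ≤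
        Real.exp (-(ε ^ 2 * ((s : ℝ) + 1) * k / (2 * (1 + ε)))) *
          ((Finset.univ : Finset (C → Fin (l + s))).card : ℝ) := by
    intro S hS
    have hSc := (Finset.mem_powersetCard.1 hS).2
    have hK : 1 ≤ (s + 1) * k := Nat.mul_pos (by omega) (by omega)
    refine (tail_count (l + s) ((s + 1) * k) A S hq hK σ hσ0.le).trans ?_
    rw [hcardΩ, mul_comm (Real.exp _)]
    apply mul_le_mul_of_nonneg_left _ (pow_nonneg hq0.le _)
    apply Real.exp_le_exp.2
    rw [hSc]
    have h1 : (1 + ε) * (k : ℝ) * ((s : ℝ) + 1) ≤ (A.card : ℝ) * ((s + 1 : ℕ) : ℝ) /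
        ((l + s : ℕ) : ℝ) := by
      rw [le_div_iff₀ hq0]
      push_cast
      have : (0 : ℝ) ≤ (s : ℝ) + 1 := by positivity
      have h2 := mul_le_mul_of_nonneg_right hA this
      linarith
    have h2 := exp_neg_le hσ0.le
    have h3 : 0 ≤ σ - σ ^ 2 / 2 := by
      have : σ ≤ 1 := by rw [hσ, div_le_one (by positivity)]; linarith
      nlinarith
    have h4 : (1 + ε) * (k : ℝ) * ((s : ℝ) + 1) * (σ - σ ^ 2 / 2) ≤
        (A.card : ℝ) * ((s + 1 : ℕ) : ℝ) / ((l + s : ℕ) : ℝ) * (1 - Real.exp (-σ)) :=
      mul_le_mul h1 (by linarith) h3 (by positivity)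
    have h5 : σ * ((((s + 1) * k : ℕ) : ℝ) - 1) -
        (1 + ε) * (k : ℝ) * ((s : ℝ) + 1) * (σ - σ ^ 2 / 2) =
        -(ε ^ 2 * ((s : ℝ) + 1) * k / (2 * (1 + ε))) - σ := by
      rw [hσ]; push_cast; field_simp; ring
    linarith
  calc ((badSet (l + s) k l A).card : ℝ)
      ≤ ∑ S ∈ Finset.powersetCard (s + 1) (Finset.univ : Finset (Fin (l + s))),
        (((Finset.univ : Finset (C → Fin (l + s))).filter
          (fun P => (A.filter (fun c => P c ∈ S)).card < (s + 1) * k)).card : ℝ) := by
        exact_mod_cast (Finset.card_le_card hsub).trans Finset.card_biUnion_le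
    _ ≤ ∑ _S ∈ Finset.powersetCard (s + 1) (Finset.univ : Finset (Fin (l + s))),
        Real.exp (-(ε ^ 2 * ((s : ℝ) + 1) * k / (2 * (1 + ε)))) *
          ((Finset.univ : Finset (C → Fin (l + s))).card : ℝ) :=
        Finset.sum_le_sum hterm
    _ = _ := by
        rw [Finset.sum_const, Finset.card_powersetCard, Finset.card_univ (α := Fin (l + s)),
          Fintype.card_fin, nsmul_eq_mul, dd]
        ring

end Pool.Agent.Lib_helper23.UC
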