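import Pool.Agent.Lib_helper23.UC.Main

/-!
# The union of a `k`-choosable and an `l`-choosable graph: final forms
-/

set_option autoImplicit false

namespace Pool.Agent.Lib_helper23.UC

open Finset Pool.Agent.Lib_helper21.UC

/-- the general form with a bound for the failure probability -/
theorem general {V : Type} [Fintype V] [DecidableEq V] (G H : SimpleGraph V) (k l : ℕ)
    (hk : 1 ≤ k) (hl : 1 ≤ l) (hG : Choosable G k) (hH : Choosable H l)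
    (ε : ℝ) (hε : 0 < ε) (L : V → Finset ℕ) (d : ℝ) (s : ℕ)
    (hL : ∀ v, (1 + ε) * ((k : ℝ) * ((l : ℝ) + s)) ≤ (L v).card)
    (hdd : dd k l s ε ≤ d) :
    (∀ w : V → ℝ, (∀ v, 0 ≤ w v) →
      ∃ (U : Finset V) (c : V → ℕ), (∀ v ∈ U, c v ∈ L v) ∧
        (∀ u ∈ U, ∀ v ∈ U, (G ⊔ H).Adj u v → c u ≠ c v) ∧
        ∑ v ∈ Uᶜ, w v ≤ d * ∑ v, w v) ∧
    ((d * ((Finset.univ.image L).card : ℝ) < 1 ∨
        ∃ D : ℕ, (∀ v, ((Finset.univ.image L).filter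
          (fun B => (L v ∩ B).Nonempty)).card ≤ D) ∧ 4 * d * D ≤ 1) →
      ∃ c : V → ℕ, (∀ v, c v ∈ L v) ∧ ∀ u v, (G ⊔ H).Adj u v → c u ≠ c v) := by
  constructor
  · intro w hw
    obtain ⟨U, c, h1, h2, h3⟩ := almost G H k l s hk hl hG hH ε hε L hL w hw
    exact ⟨U, c, h1, h2, h3.trans (mul_le_mul_of_nonneg_right hdd
      (Finset.sum_nonneg fun v _ => hw v))⟩
  · intro h
    apply full G H k l s hk hl hG hH ε hε L hL
    rcases h with h | ⟨D, hD, h⟩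
    · left
      exact lt_of_le_of_lt (mul_le_mul_of_nonneg_right hdd (Nat.cast_nonneg _)) h
    · right
      refine ⟨D, fun v => ?_, ?_⟩
      · refine le_trans (Finset.card_le_card ?_) (hD v)
        intro B hB
        rw [Finset.mem_filter] at hB ⊢
        exact ⟨hB.1, Finset.not_disjoint_iff_nonempty_inter.1 hB.2⟩
      · refine le_trans ?_ h
        apply mul_le_mul_of_nonneg_right _ (Nat.cast_nonneg _)
        linarith

/-- lists of `(1 + ε)² k l` colours -/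
theorem special {V : Type} [Fintype V] [DecidableEq V] (G H : SimpleGraph V) (k l : ℕ)
    (hk : 1 ≤ k) (hl : 1 ≤ l) (hG : Choosable G k) (hH : Choosable H l)
    (ε : ℝ) (hε : 0 < ε) (L : V → Finset ℕ) (hε1 : ε ≤ 1)
    (hlog : 8 * Real.log (6 / ε) ≤ ε ^ 2 * k)
    (hL : ∀ v, (1 + ε) ^ 2 * ((k : ℝ) * l) ≤ (L v).card) :
    (∀ w : V → ℝ, (∀ v, 0 ≤ w v) →
      ∃ (U : Finset V) (c : V → ℕ), (∀ v ∈ U, c v ∈ L v) ∧
        (∀ u ∈ U, ∀ v ∈ U, (G ⊔ H).Adj u v → c u ≠ c v) ∧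
        ∑ v ∈ Uᶜ, w v ≤ Real.exp (-(ε ^ 3 * (k * l) / 8)) * ∑ v, w v) ∧
    ((Real.exp (-(ε ^ 3 * (k * l) / 8)) * ((Finset.univ.image L).card : ℝ) < 1 ∨
        ∃ D : ℕ, (∀ v, ((Finset.univ.image L).filter
          (fun B => (L v ∩ B).Nonempty)).card ≤ D) ∧
          4 * Real.exp (-(ε ^ 3 * (k * l) / 8)) * D ≤ 1) →
      ∃ c : V → ℕ, (∀ v, c v ∈ L v) ∧ ∀ u v, (G ⊔ H).Adj u v → c u ≠ c v) := by
  apply general G H k l hk hl hG hH ε hε L _ ⌊ε * l⌋₊ _ (dd_le k l hl ε hε hε1 hlog)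
  intro v
  refine le_trans ?_ (hL v)
  have h1 : ((⌊ε * l⌋₊ : ℕ) : ℝ) ≤ ε * l := Nat.floor_le (by positivity)
  have h2 : (k : ℝ) * ((l : ℝ) + (⌊ε * l⌋₊ : ℕ)) ≤ (k : ℝ) * ((1 + ε) * l) :=
    mul_le_mul_of_nonneg_left (by linarith) (Nat.cast_nonneg _)
  calc (1 + ε) * ((k : ℝ) * ((l : ℝ) + (⌊ε * l⌋₊ : ℕ)))
      ≤ (1 + ε) * ((k : ℝ) * ((1 + ε) * l)) := mul_le_mul_of_nonneg_left h2 (by positivity)
    _ = (1 + ε) ^ 2 * ((k : ℝ) * l) := by ring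

end Pool.Agent.Lib_helper23.UC
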