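import Mathlib

/-!
# The local lemma for events on a finite product space, by counting
-/

set_option autoImplicit false

namespace Pool.Agent.Lib_helper23.UC

open Finset

variable {C F : Type} [Fintype C] [DecidableEq C] [Fintype F] [DecidableEq F]

/-- `P` on `A`, `Q` off `A` -/
def mix (A : Finset C) (P Q : C → F) : C → F := fun c => if c ∈ A then P c else Q c

omit [Fintype C] [Fintype F] [DecidableEq F] in
theorem mix_mix (A : Finset C) (P Q : C → F) : mix A (mix A P Q) (mix A Q P) = P := by
  funext c
  unfold mix
  by_cases hc : c ∈ A <;> simp [hc]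

/-- an event that depends on the coordinates in `A` and one that depends on the others are
independent -/
theorem indep (A : Finset C) (X Y : Finset (C → F))
    (hX : ∀ P Q : C → F, (∀ c ∈ A, P c = Q c) → P ∈ X → Q ∈ X)
    (hY : ∀ P Q : C → F, (∀ c, c ∉ A → P c = Q c) → P ∈ Y → Q ∈ Y) :
    (X ∩ Y).card * (Finset.univ : Finset (C → F)).card = X.card * Y.card := by
  rw [← Finset.card_product, ← Finset.card_product]
  have h1 : ∀ P Q : C → F, ∀ c ∈ A, P c = mix A P Q c := by
    intro P Q c hc; simp [mix, hc]
  have h2 : ∀ P Q : C → F, ∀ c, c ∉ A → P c = mix A Q P c := by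
    intro P Q c hc; simp [mix, hc]
  apply Finset.card_nbij' (fun x => (mix A x.1 x.2, mix A x.2 x.1))
    (fun x => (mix A x.1 x.2, mix A x.2 x.1))
  · intro x hx
    simp only [Finset.coe_product, Set.mem_prod, Finset.mem_coe, Finset.mem_inter] at hx ⊢
    exact ⟨hX _ _ (h1 x.1 x.2) hx.1.1, hY _ _ (h2 x.1 x.2) hx.1.2⟩
  · intro x hx
    simp only [Finset.coe_product, Set.mem_prod, Finset.mem_coe, Finset.mem_inter,
      Finset.mem_univ, and_true] at hx ⊢
    exact ⟨hX _ _ (h1 x.1 x.2) hx.1, hY _ _ (h2 x.2 x.1) hx.2⟩
  · intro x _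
    simp only [mix_mix]
  · intro x _
    simp only [mix_mix]

/-- **Local lemma** (counting form). The events `E i` depend on the coordinates in `A i`, have
probability at most `p`, every `A i` meets at most `D` of the `A j`, and `4 p D ≤ 1`. -/
theorem lll {ι : Type} [Fintype ι] [DecidableEq ι] [Nonempty F] (A : ι → Finset C)
    (E : ι → Finset (C → F))
    (hE : ∀ i, ∀ P Q : C → F, (∀ c ∈ A i, P c = Q c) → P ∈ E i → Q ∈ E i)
    (p : ℝ) (hp0 : 0 ≤ p)
    (hp : ∀ i, ((E i).card : ℝ) ≤ p * ((Finset.univ : Finset (C → F)).card : ℝ))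
    (D : ℕ) (hD1 : 1 ≤ D)
    (hD : ∀ i, ((Finset.univ : Finset ι).filter (fun j => ¬ Disjoint (A i) (A j))).card ≤ D)
    (hpD : 4 * p * D ≤ 1) :
    ∃ P : C → F, ∀ i, P ∉ E i := by
  classical
  set N : Finset ι → Finset (C → F) := fun S => Finset.univ.filter (fun P => ∀ j ∈ S, P ∉ E j)
    with hN
  have hΩ : (0 : ℝ) < ((Finset.univ : Finset (C → F)).card : ℝ) := by
    have : (Finset.univ : Finset (C → F)).Nonempty := Finset.univ_nonempty
    exact_mod_cast Finset.card_pos.2 this
  have hanti : ∀ S T : Finset ι, S ⊆ T → N T ⊆ N S := by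
    intro S T hST P hP
    simp only [hN, Finset.mem_filter, Finset.mem_univ, true_and] at hP ⊢
    exact fun j hj => hP j (hST hj)
  have hD0 : (1 : ℝ) ≤ D := by exact_mod_cast hD1
  -- the main claim
  have claim : ∀ n : ℕ, ∀ S : Finset ι, S.card = n → ∀ i,
      ((E i ∩ N S).card : ℝ) ≤ 2 * p * ((N S).card : ℝ) := by
    intro n
    induction n using Nat.strong_induction_on with
    | _ n ih =>
    intro S hS i
    set S1 := S.filter (fun j => ¬ Disjoint (A i) (A j)) with hS1
    set S2 := S.filter (fun j => Disjoint (A i) (A j)) with hS2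
    have hcard : S2.card + S1.card = S.card := by
      rw [hS1, hS2]
      exact Finset.card_filter_add_card_filter_not (s := S) (fun j => Disjoint (A i) (A j))
    have hS2S : S2 ⊆ S := Finset.filter_subset _ _
    -- the event `E i` against the far events
    have h1 : ((E i ∩ N S2).card : ℝ) ≤ p * ((N S2).card : ℝ) := by
      have h2 := indep (A i) (E i) (N S2) (hE i) (by
        intro P Q hPQ hP
        simp only [hN, Finset.mem_filter, Finset.mem_univ, true_and] at hP ⊢
        intro j hj hQ
        have hdis : Disjoint (A i) (A j) := (Finset.mem_filter.1 hj).2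
        refine hP j hj (hE j Q P ?_ hQ)
        intro c hc
        exact (hPQ c (fun h => (Finset.disjoint_left.1 hdis h) hc)).symm)
      have h3 : ((E i ∩ N S2).card : ℝ) * ((Finset.univ : Finset (C → F)).card : ℝ) =
          ((E i).card : ℝ) * ((N S2).card : ℝ) := by exact_mod_cast h2
      have h4 : ((E i).card : ℝ) * ((N S2).card : ℝ) ≤
          p * ((Finset.univ : Finset (C → F)).card : ℝ) * ((N S2).card : ℝ) :=
        mul_le_mul_of_nonneg_right (hp i) (Nat.cast_nonneg _)
      have h5 : ((E i ∩ N S2).card : ℝ) * ((Finset.univ : Finset (C → F)).card : ℝ) ≤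
          (p * ((N S2).card : ℝ)) * ((Finset.univ : Finset (C → F)).card : ℝ) := by
        rw [h3]; linarith
      exact le_of_mul_le_mul_right h5 hΩ
    have h6 : ((E i ∩ N S).card : ℝ) ≤ ((E i ∩ N S2).card : ℝ) := by
      exact_mod_cast Finset.card_le_card (Finset.inter_subset_inter_left (hanti _ _ hS2S))
    -- the near events remove at most one half
    have h7 : ((N S2).card : ℝ) ≤ 2 * ((N S).card : ℝ) := by
      rcases Finset.eq_empty_or_nonempty S1 with h | h
      · have : S2 = S := by
          apply Finset.eq_of_subset_of_card_le hS2S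
          rw [h, Finset.card_empty, add_zero] at hcard
          omega
        rw [this]
        have : (0 : ℝ) ≤ ((N S).card : ℝ) := Nat.cast_nonneg _
        linarith
      · have hlt : S2.card < n := by
          have := Finset.card_pos.2 h
          omega
        have h8 : N S2 ⊆ N S ∪ S1.biUnion (fun j => E j ∩ N S2) := by
          intro P hP
          by_cases hPS : P ∈ N S
          · exact Finset.mem_union_left _ hPS
          · apply Finset.mem_union_right
            simp only [hN, Finset.mem_filter, Finset.mem_univ, true_and, not_forall,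
              not_not] at hPS
            obtain ⟨j, hj, hPj⟩ := hPS
            rw [Finset.mem_biUnion]
            refine ⟨j, ?_, Finset.mem_inter.2 ⟨hPj, hP⟩⟩
            rw [hS1, Finset.mem_filter]
            refine ⟨hj, fun hdis => ?_⟩
            have h9 : j ∈ S2 := Finset.mem_filter.2 ⟨hj, hdis⟩
            simp only [hN, Finset.mem_filter, Finset.mem_univ, true_and] at hP
            exact hP j h9 hPj
        have h9 : ((N S2).card : ℝ) ≤ ((N S).card : ℝ) +
            ∑ j ∈ S1, ((E j ∩ N S2).card : ℝ) := by
          have := (Finset.card_le_card h8).trans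
            ((Finset.card_union_le _ _).trans (Nat.add_le_add_left Finset.card_biUnion_le _))
          exact_mod_cast this
        have h10 : ∑ j ∈ S1, ((E j ∩ N S2).card : ℝ) ≤
            S1.card * (2 * p * ((N S2).card : ℝ)) := by
          rw [← nsmul_eq_mul, ← Finset.sum_const]
          exact Finset.sum_le_sum (fun j _ => ih S2.card hlt S2 rfl j)
        have h11 : (S1.card : ℝ) ≤ D := by
          have : S1.card ≤ D := (Finset.card_le_card (Finset.filter_subset_filter _
            (Finset.subset_univ S))).trans (hD i)
          exact_mod_cast this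
        have h12 : (S1.card : ℝ) * (2 * p * ((N S2).card : ℝ)) ≤
            (D : ℝ) * (2 * p * ((N S2).card : ℝ)) :=
          mul_le_mul_of_nonneg_right h11 (by positivity)
        have h13 : (D : ℝ) * (2 * p * ((N S2).card : ℝ)) ≤ 1 / 2 * ((N S2).card : ℝ) := by
          have h14 : (D : ℝ) * (2 * p) ≤ 1 / 2 := by linarith
          calc (D : ℝ) * (2 * p * ((N S2).card : ℝ)) = (D : ℝ) * (2 * p) * ((N S2).card : ℝ) := by
                ring
            _ ≤ _ := mul_le_mul_of_nonneg_right h14 (Nat.cast_nonneg _)
        linarith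
    calc ((E i ∩ N S).card : ℝ) ≤ p * ((N S2).card : ℝ) := h6.trans h1
      _ ≤ p * (2 * ((N S).card : ℝ)) := mul_le_mul_of_nonneg_left h7 hp0
      _ = _ := by ring
  have hp4 : 2 * p ≤ 1 / 2 := by nlinarith
  have pos : ∀ S : Finset ι, 0 < ((N S).card : ℝ) := by
    intro S
    induction S using Finset.induction_on with
    | empty =>
      have : N ∅ = Finset.univ := by ext; simp [hN]
      rw [this]; exact hΩ
    | insert i S hi ih =>
      have h1 : N S ⊆ N (insert i S) ∪ (E i ∩ N S) := by
        intro P hP
        by_cases hPi : P ∈ E i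
        · exact Finset.mem_union_right _ (Finset.mem_inter.2 ⟨hPi, hP⟩)
        · apply Finset.mem_union_left
          simp only [hN, Finset.mem_filter, Finset.mem_univ, true_and] at hP ⊢
          intro j hj
          rcases Finset.mem_insert.1 hj with h | h
          · rw [h]; exact hPi
          · exact hP j h
      have h2 : ((N S).card : ℝ) ≤ ((N (insert i S)).card : ℝ) + ((E i ∩ N S).card : ℝ) := by
        exact_mod_cast (Finset.card_le_card h1).trans (Finset.card_union_le _ _)
      have h3 := claim S.card S rfl i
      have h4 : 2 * p * ((N S).card : ℝ) ≤ 1 / 2 * ((N S).card : ℝ) :=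
        mul_le_mul_of_nonneg_right hp4 (Nat.cast_nonneg _)
      linarith
  have h := pos Finset.univ
  have h' : 0 < (N Finset.univ).card := by exact_mod_cast h
  obtain ⟨P, hP⟩ := Finset.card_pos.1 h'
  simp only [hN, Finset.mem_filter, Finset.mem_univ, true_and] at hP
  exact ⟨P, fun i => hP i trivial⟩

end Pool.Agent.Lib_helper23.UC
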