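import Pool.Agent.Lib_helper21.UC.Core
import Pool.Agent.Lib_helper23.UC.Count
import Pool.Agent.Lib_helper23.UC.LLL

/-!
# The union of a `k`-choosable and an `l`-choosable graph: partitions with slack
-/

set_option autoImplicit false

namespace Pool.Agent.Lib_helper23.UC

open Finset Pool.Agent.Lib_helper21.UC

theorem badSet_local {C : Type} [Fintype C] [DecidableEq C] (q k l : ℕ) (A : Finset C)
    (P Q : C → Fin q) (h : ∀ c ∈ A, P c = Q c) (hP : P ∈ badSet q k l A) :
    Q ∈ badSet q k l A := by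
  rw [badSet, Finset.mem_filter] at hP ⊢
  refine ⟨Finset.mem_univ _, ?_⟩
  have h1 : ∀ i : Fin q, A.filter (fun c => Q c = i) = A.filter (fun c => P c = i) := by
    intro i
    apply Finset.filter_congr
    intro c hc
    rw [h c hc]
  simp only [h1]
  exact hP.2

/-- a partition which is good for almost all vertices -/
theorem partition_weight {V : Type} [Fintype V] {C : Type} [Fintype C] [DecidableEq C]
    (k l s : ℕ) (hk : 1 ≤ k) (hl : 1 ≤ l) (L : V → Finset C) (ε : ℝ) (hε : 0 < ε)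
    (hL : ∀ v, (1 + ε) * ((k : ℝ) * ((l : ℝ) + s)) ≤ (L v).card)
    (w : V → ℝ) (hw : ∀ v, 0 ≤ w v) :
    ∃ P : C → Fin (l + s),
      ∑ v, (if P ∈ badSet (l + s) k l (L v) then w v else 0) ≤ dd k l s ε * ∑ v, w v := by
  classical
  have hne : (Finset.univ : Finset (C → Fin (l + s))).Nonempty := by
    have : Nonempty (Fin (l + s)) := ⟨⟨0, by omega⟩⟩
    exact Finset.univ_nonempty
  have hsum : ∑ P : C → Fin (l + s),
      ∑ v, (if P ∈ badSet (l + s) k l (L v) then w v else 0) ≤
      ∑ _P : C → Fin (l + s), dd k l s ε * ∑ v, w v := by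
    rw [Finset.sum_comm, Finset.sum_const, nsmul_eq_mul, Finset.mul_sum, Finset.mul_sum]
    apply Finset.sum_le_sum
    intro v _
    have h1 : ∑ P : C → Fin (l + s), (if P ∈ badSet (l + s) k l (L v) then w v else 0) =
        ((badSet (l + s) k l (L v)).card : ℝ) * w v := by
      rw [← Finset.sum_filter]
      have : (Finset.univ.filter (fun P => P ∈ badSet (l + s) k l (L v))) =
          badSet (l + s) k l (L v) := by ext; simp
      rw [this, Finset.sum_const, nsmul_eq_mul]
    rw [h1]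
    have h2 := bad_count k l s hk hl (L v) ε hε (hL v)
    have h3 := mul_le_mul_of_nonneg_right h2 (hw v)
    linarith
  obtain ⟨P, _, hP⟩ := Finset.exists_le_of_sum_le hne hsum
  exact ⟨P, hP⟩

/-- the colouring from a partition -/
theorem colour {V : Type} [Fintype V] [DecidableEq V] {S : Finset ℕ} (G H : SimpleGraph V)
    (k l q : ℕ) (hG : Choosable G k) (hH : Choosable H l)
    (L : V → Finset ℕ) (L' : V → Finset {x // x ∈ S})
    (hL' : ∀ v x, x ∈ L' v → x.1 ∈ L v) (P : {x // x ∈ S} → Fin q) (U : Finset V)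
    (hU : ∀ v ∈ U, P ∉ badSet q k l (L' v)) :
    ∃ c : V → ℕ, (∀ v ∈ U, c v ∈ L v) ∧ ∀ u ∈ U, ∀ v ∈ U, (G ⊔ H).Adj u v → c u ≠ c v := by
  classical
  -- the good parts of a vertex
  set g : V → Finset (Fin q) := fun v => (Finset.univ : Finset (Fin q)).filter
    (fun i => k ≤ ((L' v).filter (fun c => P c = i)).card) with hg
  have hgc : ∀ v ∈ U, l ≤ (g v).card := by
    intro v hv
    have := hU v hv
    rw [badSet, Finset.mem_filter, not_and] at this
    exact not_lt.1 (this (Finset.mem_univ _))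
  -- colour `G` from every part
  set Q : Fin q → V → Finset ℕ := fun i v =>
    if i ∈ g v then ((L' v).filter (fun c => P c = i)).map (Function.Embedding.subtype _)
    else Finset.range k with hQ
  have hcol : ∀ i : Fin q, ∃ c : V → ℕ, (∀ v, c v ∈ Q i v) ∧ ∀ u v, G.Adj u v → c u ≠ c v := by
    intro i
    apply hG.of_le
    intro v
    simp only [hQ]
    split_ifs with hv
    · rw [Finset.card_map]
      exact (Finset.mem_filter.1 hv).2
    · simp
  choose c hc hcG using hcol
  have hc' : ∀ i v, i ∈ g v → ∃ x : {x // x ∈ S}, x.1 = c i v ∧ x.1 ∈ L v ∧ P x = i := by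
    intro i v hv
    have := hc i v
    simp only [hQ, if_pos hv] at this
    rw [Finset.mem_map] at this
    obtain ⟨x, hx, hxe⟩ := this
    rw [Finset.mem_filter] at hx
    exact ⟨x, hxe, hL' v x hx.1, hx.2⟩
  have key : ∀ i j u v, i ∈ g u → j ∈ g v → c i u = c j v → i = j := by
    intro i j u v hu hv h
    obtain ⟨x, hx1, _, hx3⟩ := hc' i u hu
    obtain ⟨y, hy1, _, hy3⟩ := hc' j v hv
    have : x = y := Subtype.ext (by rw [hx1, hy1, h])
    rw [← hx3, ← hy3, this]
  set M : V → Finset ℕ := fun v =>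
    if v ∈ U then (g v).image (fun i => c i v) else Finset.range l with hM
  have hMc : ∀ v, l ≤ (M v).card := by
    intro v
    simp only [hM]
    split_ifs with hv
    · rw [Finset.card_image_of_injOn (fun i hi j hj h => key i j v v hi hj h)]
      exact hgc v hv
    · simp
  obtain ⟨f, hf, hfH⟩ := hH.of_le M hMc
  have hfU : ∀ v ∈ U, ∃ i ∈ g v, c i v = f v := by
    intro v hv
    have := hf v
    simp only [hM, if_pos hv] at this
    obtain ⟨i, hi1, hi⟩ := Finset.mem_image.1 this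
    exact ⟨i, hi1, hi⟩
  refine ⟨f, ?_, ?_⟩
  · intro v hv
    obtain ⟨i, hi1, hi⟩ := hfU v hv
    obtain ⟨x, hx1, hx2, _⟩ := hc' i v hi1
    rw [← hi, ← hx1]; exact hx2
  · intro u hu v hv huv
    rw [SimpleGraph.sup_adj] at huv
    rcases huv with h | h
    · obtain ⟨i, hi1, hi⟩ := hfU u hu
      obtain ⟨j, hj1, hj⟩ := hfU v hv
      intro he
      have hij : i = j := key i j u v hi1 hj1 (by rw [hi, hj, he])
      subst hij
      exact hcG i u v h (by rw [hi, hj, he])
    · exact hfH u v h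

/-- the palette as a type -/
theorem palette {V : Type} [Fintype V] (L : V → Finset ℕ) :
    ∃ (S : Finset ℕ) (L' : V → Finset {x // x ∈ S}),
      (∀ v, (L' v).map (Function.Embedding.subtype _) = L v) := by
  classical
  refine ⟨Finset.univ.biUnion L, fun v => Finset.univ.filter (fun c => c.1 ∈ L v), ?_⟩
  intro v
  have hsub : L v ⊆ Finset.univ.biUnion L :=
    Finset.subset_biUnion_of_mem L (Finset.mem_univ v)
  ext x
  simp only [Finset.mem_map, Finset.mem_filter, Finset.mem_univ, true_and,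
    Function.Embedding.coe_subtype]
  constructor
  · rintro ⟨c, hc, rfl⟩; exact hc
  · intro hx; exact ⟨⟨x, hsub hx⟩, hx, rfl⟩

/-- almost all vertices can be coloured -/
theorem almost {V : Type} [Fintype V] [DecidableEq V] (G H : SimpleGraph V) (k l s : ℕ)
    (hk : 1 ≤ k) (hl : 1 ≤ l) (hG : Choosable G k) (hH : Choosable H l) (ε : ℝ) (hε : 0 < ε)
    (L : V → Finset ℕ) (hL : ∀ v, (1 + ε) * ((k : ℝ) * ((l : ℝ) + s)) ≤ (L v).card)
    (w : V → ℝ) (hw : ∀ v, 0 ≤ w v) :
    ∃ (U : Finset V) (c : V → ℕ), (∀ v ∈ U, c v ∈ L v) ∧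
      (∀ u ∈ U, ∀ v ∈ U, (G ⊔ H).Adj u v → c u ≠ c v) ∧
      ∑ v ∈ Uᶜ, w v ≤ dd k l s ε * ∑ v, w v := by
  classical
  obtain ⟨S, L', hLL⟩ := palette L
  have hcard : ∀ v, (L' v).card = (L v).card := by
    intro v
    conv_rhs => rw [← hLL v, Finset.card_map]
  obtain ⟨P, hP⟩ := partition_weight k l s hk hl L' ε hε (fun v => by rw [hcard v]; exact hL v) w hw
  set U : Finset V := Finset.univ.filter (fun v => P ∉ badSet (l + s) k l (L' v)) with hU
  obtain ⟨c, h1, h2⟩ := colour G H k l (l + s) hG hH L L' (by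
    intro v x hx
    rw [← hLL v]
    exact Finset.mem_map.2 ⟨x, hx, rfl⟩) P U (fun v hv => (Finset.mem_filter.1 hv).2)
  refine ⟨U, c, h1, h2, ?_⟩
  have h3 : ∑ v ∈ Uᶜ, w v = ∑ v, (if P ∈ badSet (l + s) k l (L' v) then w v else 0) := by
    rw [← Finset.sum_filter]
    congr 1
    ext v
    simp [hU]
  rw [h3]
  exact hP

/-- everything can be coloured if there are few different lists, or if every list meets few
different lists -/
theorem full {V : Type} [Fintype V] [DecidableEq V] (G H : SimpleGraph V) (k l s : ℕ)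
    (hk : 1 ≤ k) (hl : 1 ≤ l) (hG : Choosable G k) (hH : Choosable H l) (ε : ℝ) (hε : 0 < ε)
    (L : V → Finset ℕ) (hL : ∀ v, (1 + ε) * ((k : ℝ) * ((l : ℝ) + s)) ≤ (L v).card)
    (h : dd k l s ε * ((Finset.univ.image L).card : ℝ) < 1 ∨
      ∃ D : ℕ, (∀ v, ((Finset.univ.image L).filter (fun B => ¬ Disjoint (L v) B)).card ≤ D) ∧
        4 * dd k l s ε * D ≤ 1) :
    ∃ c : V → ℕ, (∀ v, c v ∈ L v) ∧ ∀ u v, (G ⊔ H).Adj u v → c u ≠ c v := by
  classical
  rcases isEmpty_or_nonempty V with hV | hV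
  · exact ⟨fun _ => 0, fun v => hV.elim v, fun u => hV.elim u⟩
  obtain ⟨S, L', hLL⟩ := palette L
  have hcard : ∀ v, (L' v).card = (L v).card := by
    intro v
    conv_rhs => rw [← hLL v, Finset.card_map]
  have hinj : ∀ u v, L u = L v → L' u = L' v := by
    intro u v huv
    apply Finset.map_injective (Function.Embedding.subtype _)
    rw [hLL u, hLL v, huv]
  have hinj' : ∀ u v, L' u = L' v → L u = L v := by
    intro u v huv
    rw [← hLL u, ← hLL v, huv]
  have hfin : ∀ P : {x // x ∈ S} → Fin (l + s), (∀ v, P ∉ badSet (l + s) k l (L' v)) →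
      ∃ c : V → ℕ, (∀ v, c v ∈ L v) ∧ ∀ u v, (G ⊔ H).Adj u v → c u ≠ c v := by
    intro P hP
    obtain ⟨c, h1, h2⟩ := colour G H k l (l + s) hG hH L L' (by
      intro v x hx
      rw [← hLL v]
      exact Finset.mem_map.2 ⟨x, hx, rfl⟩) P Finset.univ (fun v _ => hP v)
    exact ⟨c, fun v => h1 v (Finset.mem_univ v), fun u v =>
      h2 u (Finset.mem_univ u) v (Finset.mem_univ v)⟩
  -- the different lists
  set J : Finset (Finset {x // x ∈ S}) := Finset.univ.image L' with hJ
  have hJL : J.card = (Finset.univ.image L).card := by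
    apply Finset.card_bij (fun B _ => B.map (Function.Embedding.subtype _))
    · intro B hB
      obtain ⟨v, _, rfl⟩ := Finset.mem_image.1 hB
      rw [hLL v]
      exact Finset.mem_image_of_mem _ (Finset.mem_univ v)
    · intro B _ B' _ hBB
      exact Finset.map_injective _ hBB
    · intro B hB
      obtain ⟨v, _, rfl⟩ := Finset.mem_image.1 hB
      exact ⟨L' v, Finset.mem_image_of_mem _ (Finset.mem_univ v), hLL v⟩
  have hbig : ∀ B ∈ J, (1 + ε) * ((k : ℝ) * ((l : ℝ) + s)) ≤ B.card := by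
    intro B hB
    obtain ⟨v, _, rfl⟩ := Finset.mem_image.1 hB
    rw [hcard v]; exact hL v
  rcases h with h | ⟨D, hD, hdD⟩
  · -- few lists
    obtain ⟨P, hP⟩ := partition_weight (V := {B // B ∈ J}) k l s hk hl (fun B => B.1) ε hε
      (fun B => hbig B.1 B.2) (fun _ => 1) (fun _ => zero_le_one)
    apply hfin P
    intro v hv
    have h1 : (1 : ℝ) ≤ ∑ B : {B // B ∈ J},
        (if P ∈ badSet (l + s) k l B.1 then (1 : ℝ) else 0) := by
      have hmem : L' v ∈ J := Finset.mem_image_of_mem _ (Finset.mem_univ v)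
      calc (1 : ℝ) = if P ∈ badSet (l + s) k l (⟨L' v, hmem⟩ : {B // B ∈ J}).1 then (1 : ℝ)
            else 0 := by rw [if_pos hv]
        _ ≤ _ := Finset.single_le_sum (f := fun B : {B // B ∈ J} =>
            if P ∈ badSet (l + s) k l B.1 then (1 : ℝ) else 0)
            (fun j _ => by split_ifs <;> norm_num) (Finset.mem_univ _)
    have h2 : ∑ _B : {B // B ∈ J}, (1 : ℝ) = ((Finset.univ.image L).card : ℝ) := by
      rw [← hJL]; simp
    rw [h2] at hP
    linarith
  · -- local lemma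
    obtain ⟨v0⟩ := hV
    have hD1 : 1 ≤ D := by
      refine le_trans ?_ (hD v0)
      apply Finset.card_pos.2
      refine ⟨L v0, Finset.mem_filter.2 ⟨Finset.mem_image_of_mem _ (Finset.mem_univ _), ?_⟩⟩
      intro hdis
      have h0 : L v0 = ∅ := by
        have := Finset.disjoint_self_iff_empty (L v0)
        exact this.1 hdis
      have h1 := hL v0
      rw [h0, Finset.card_empty] at h1
      have hk0 : (0 : ℝ) < k := by exact_mod_cast hk
      have hl0 : (0 : ℝ) < l := by exact_mod_cast hl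
      have : 0 < (1 + ε) * ((k : ℝ) * ((l : ℝ) + s)) := by positivity
      push_cast at h1
      linarith
    have : Nonempty (Fin (l + s)) := ⟨⟨0, by omega⟩⟩
    obtain ⟨P, hP⟩ := lll (ι := {B // B ∈ J}) (fun B => B.1)
      (fun B => badSet (l + s) k l B.1)
      (fun B P Q hPQ hP => badSet_local _ _ _ _ P Q hPQ hP) (dd k l s ε) (dd_nonneg _ _ _ _)
      (fun B => bad_count k l s hk hl B.1 ε hε (hbig B.1 B.2)) D hD1 (by
        rintro ⟨B, hB⟩
        obtain ⟨v, _, rfl⟩ := Finset.mem_image.1 hB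
        refine le_trans ?_ (hD v)
        apply Finset.card_le_card_of_injOn
          (fun B' : {B // B ∈ J} => B'.1.map (Function.Embedding.subtype _))
        · intro B' hB'
          simp only [Finset.coe_filter, Finset.mem_univ, true_and, Set.mem_ofPred_eq] at hB'
          obtain ⟨u, _, hu⟩ := Finset.mem_image.1 B'.2
          simp only [Finset.coe_filter, Set.mem_ofPred_eq]
          constructor
          · rw [← hu, hLL u]
            exact Finset.mem_image_of_mem _ (Finset.mem_univ u)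
          · intro hdis
            apply hB'
            rw [Finset.disjoint_left] at hdis ⊢
            intro x hx hx'
            refine hdis (a := x.1) ?_ (Finset.mem_map.2 ⟨x, hx', rfl⟩)
            rw [← hLL v]
            exact Finset.mem_map.2 ⟨x, hx, rfl⟩
        · intro B1 _ B2 _ h12
          exact Subtype.ext (Finset.map_injective _ h12)) hdD
    apply hfin P
    intro v
    exact hP ⟨L' v, Finset.mem_image_of_mem _ (Finset.mem_univ v)⟩

/-- the failure probability for slack `s = ⌊ε l⌋` -/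
theorem dd_le (k l : ℕ) (hl : 1 ≤ l) (ε : ℝ) (hε : 0 < ε) (hε1 : ε ≤ 1)
    (hk : 8 * Real.log (6 / ε) ≤ ε ^ 2 * k) :
    dd k l ⌊ε * l⌋₊ ε ≤ Real.exp (-(ε ^ 3 * (k * l) / 8)) := by
  set s := ⌊ε * l⌋₊ with hs
  have hl0 : (0 : ℝ) < l := by exact_mod_cast hl
  have hs1 : (s : ℝ) ≤ ε * l := Nat.floor_le (by positivity)
  have hs2 : ε * l < (s : ℝ) + 1 := Nat.lt_floor_add_one _
  have hs0 : (0 : ℝ) < (s : ℝ) + 1 := by positivity
  have h1 : (((l + s).choose (s + 1) : ℕ) : ℝ) ≤ (6 / ε) ^ (s + 1) := by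
    have h2 : (((l + s).choose (s + 1) : ℕ) : ℝ) ≤
        ((l + s : ℕ) : ℝ) ^ (s + 1) / ((s + 1).factorial : ℝ) :=
      Nat.choose_le_pow_div (s + 1) (l + s)
    have h3 : ((s : ℝ) + 1) ^ (s + 1) / ((s + 1).factorial : ℝ) ≤ Real.exp ((s : ℝ) + 1) :=
      Real.pow_div_factorial_le_exp _ hs0.le _
    have hf : (0 : ℝ) < ((s + 1).factorial : ℝ) := by exact_mod_cast Nat.factorial_pos _
    have h4 : ((l + s : ℕ) : ℝ) ^ (s + 1) / ((s + 1).factorial : ℝ) ≤
        (((l + s : ℕ) : ℝ) / ((s : ℝ) + 1)) ^ (s + 1) * Real.exp ((s : ℝ) + 1) := by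
      have h5 : ((l + s : ℕ) : ℝ) ^ (s + 1) / ((s + 1).factorial : ℝ) =
          (((l + s : ℕ) : ℝ) / ((s : ℝ) + 1)) ^ (s + 1) *
            (((s : ℝ) + 1) ^ (s + 1) / ((s + 1).factorial : ℝ)) := by
        rw [div_pow]; field_simp
      rw [h5]
      exact mul_le_mul_of_nonneg_left h3 (by positivity)
    have h6 : Real.exp ((s : ℝ) + 1) = Real.exp 1 ^ (s + 1) := by
      rw [← Real.exp_nat_mul]; push_cast; ring_nf
    rw [h6, ← mul_pow] at h4
    refine h2.trans (h4.trans ?_)
    apply pow_le_pow_left₀ (by positivity)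
    have h7 : ((l + s : ℕ) : ℝ) / ((s : ℝ) + 1) ≤ 2 / ε := by
      rw [div_le_div_iff₀ hs0 hε]
      push_cast
      nlinarith
    have h8 : Real.exp 1 ≤ 3 := by
      have := Real.exp_one_lt_d9
      linarith
    calc ((l + s : ℕ) : ℝ) / ((s : ℝ) + 1) * Real.exp 1 ≤ 2 / ε * 3 :=
          mul_le_mul h7 h8 (Real.exp_pos _).le (by positivity)
      _ = 6 / ε := by ring
  have h6 : (0 : ℝ) < 6 / ε := by positivity
  have h9 : (6 / ε) ^ (s + 1) = Real.exp (((s : ℝ) + 1) * Real.log (6 / ε)) := by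
    conv_lhs => rw [← Real.exp_log h6]
    rw [← Real.exp_nat_mul]; push_cast; ring_nf
  unfold dd
  refine (mul_le_mul_of_nonneg_right h1 (Real.exp_pos _).le).trans ?_
  rw [h9, ← Real.exp_add]
  apply Real.exp_le_exp.2
  have hk0 : (0 : ℝ) ≤ k := Nat.cast_nonneg _
  have h10 : ε ^ 2 * k / 4 ≤ ε ^ 2 * k / (2 * (1 + ε)) := by
    apply div_le_div_of_nonneg_left (by positivity) (by positivity)
    linarith
  have h11 : ε ^ 2 * ((s : ℝ) + 1) * k / (2 * (1 + ε)) =
      ((s : ℝ) + 1) * (ε ^ 2 * k / (2 * (1 + ε))) := by ring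
  rw [h11]
  have h12 : ((s : ℝ) + 1) * (Real.log (6 / ε) - ε ^ 2 * k / (2 * (1 + ε))) ≤
      ((s : ℝ) + 1) * (-(ε ^ 2 * k / 8)) :=
    mul_le_mul_of_nonneg_left (by linarith) hs0.le
  have h13 : ε * l * (ε ^ 2 * k / 8) ≤ ((s : ℝ) + 1) * (ε ^ 2 * k / 8) :=
    mul_le_mul_of_nonneg_right hs2.le (by positivity)
  have h14 : ε * l * (ε ^ 2 * k / 8) = ε ^ 3 * (k * l) / 8 := by ring
  linarith

end Pool.Agent.Lib_helper23.UC
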